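import Pool.Agent.H484.HH.Stm

set_option autoImplicit false

open Finset

namespace Pool.Agent.H484.HH

theorem t_CHO (hBAD : S_BAD) (hEXP : S_EXP) : S_CHO := by
  classical
  intro s t
  refine ⟨4 * 5 ^ (t + 1) * (41 + 20 * s + 20 * t), by positivity, fun N _ b hb => ?_⟩
  have hN : N.Prime := Fact.out
  have hN2 : 2 ≤ N := hN.two_le
  have hNr : (2 : ℝ) ≤ N := by exact_mod_cast hN2
  set l : ℝ := (Nat.log 2 N : ℝ) + 2 with hl
  have hl2 : 2 ≤ l := by rw [hl]; have : (0 : ℝ) ≤ Nat.log 2 N := Nat.cast_nonneg _; linarith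
  have hlogN : Real.log N ≤ l := by
    have h1 : N < 2 ^ (Nat.log 2 N + 1) := Nat.lt_pow_succ_log_self (by norm_num) N
    have h2 : (N : ℝ) ≤ (2 : ℝ) ^ (Nat.log 2 N + 1) := by exact_mod_cast h1.le
    have h3 : Real.log N ≤ ((Nat.log 2 N + 1 : ℕ) : ℝ) * Real.log 2 := by
      rw [← Real.log_pow]
      exact Real.log_le_log (by linarith) h2
    have h4 : Real.log 2 ≤ 1 := by have := Real.log_two_lt_d9; linarith
    have h5 : ((Nat.log 2 N + 1 : ℕ) : ℝ) * Real.log 2 ≤ ((Nat.log 2 N + 1 : ℕ) : ℝ) * 1 := by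
      gcongr
    push_cast at h3 h5
    rw [hl]
    linarith
  have hlogN0 : 0 ≤ Real.log N := Real.log_nonneg (by linarith)
  set L : ℝ := 3 + 2 * Real.log N with hL
  have hL1 : 1 ≤ L := by rw [hL]; linarith
  have hL4 : L ≤ 4 * l := by rw [hL]; linarith
  have hκ : ((Ks N s).card : ℝ) = l ^ s := by
    unfold Ks
    rw [Fintype.card_piFinset]
    simp only [card_range, prod_const, card_univ, Fintype.card_fin]
    rw [hl]
    push_cast
    rfl
  set T : ℝ := 12 * l ^ s * L ^ t with hT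
  have hls1 : 1 ≤ l ^ s := one_le_pow₀ (by linarith)
  have hLt1 : 1 ≤ L ^ t := one_le_pow₀ hL1
  have hT1 : 1 ≤ T := by
    have : 1 ≤ l ^ s * L ^ t := one_le_mul_of_one_le_of_one_le hls1 hLt1
    rw [hT, mul_assoc]; linarith
  have hT0 : 0 < T := by linarith
  set n1 : ℝ := ((N : ℝ) - 1) ^ t with hn1
  have hn1pos : 0 < n1 := pow_pos (by linarith) t
  -- all generators
  have hall : ((univ : Finset (Fin t → (ZMod N)ˣ)).card : ℝ) = n1 := by
    rw [card_univ, Fintype.card_fun, Fintype.card_fin, ZMod.card_units]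
    push_cast
    rw [hn1, Nat.cast_sub (by omega)]
    simp
  -- the unit Q_k
  have hcop : ∀ k : Fin s → ℕ, (∏ i, b i ^ k i).Coprime N := by
    intro k
    exact Nat.Coprime.prod_left fun i _ => Nat.Coprime.pow_left _ (hb i)
  let Q : (Fin s → ℕ) → (ZMod N)ˣ := fun k => ZMod.unitOfCoprime (∏ i, b i ^ k i) (hcop k)
  have hQ : ∀ k, ((Q k : (ZMod N)ˣ) : ZMod N) = ((∏ i, b i ^ k i : ℕ) : ZMod N) := fun k =>
    ZMod.coe_unitOfCoprime _ _
  let mul : (Fin s → ℕ) → (Fin t → (ZMod N)ˣ) → (Fin t → (ZMod N)ˣ) := fun k g j => Q k * g j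
  have hmul : ∀ k, Function.Injective (mul k) := by
    intro k g g' h
    funext j
    exact mul_left_cancel (congrFun h j)
  have hmulc : ∀ k g, (fun j => ((mul k g j : (ZMod N)ˣ) : ZMod N)) =
      fun j => (((∏ i, b i ^ k i : ℕ) : ZMod N)) * (g j : ZMod N) := by
    intro k g
    funext j
    show ((Q k * g j : (ZMod N)ˣ) : ZMod N) = _
    rw [Units.val_mul, hQ]
  -- the bad set
  let Bd : Finset (Fin t → (ZMod N)ˣ) := univ.filter fun h => ¬ good T fun i => (h i : ZMod N)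
  have hBd : (Bd.card : ℝ) * T ≤ 6 * L ^ t * n1 := by
    have h1 := hBAD N t T hT1
    have h2 : Nat.card {h : Fin t → (ZMod N)ˣ // ¬ good T fun i => (h i : ZMod N)} = Bd.card := by
      rw [Nat.card_eq_fintype_card, Fintype.card_subtype]
    rw [h2] at h1
    exact h1
  let B : Finset (Fin t → (ZMod N)ˣ) := (Ks N s).biUnion fun k => univ.filter fun g => mul k g ∈ Bd
  have hB : (B.card : ℝ) ≤ n1 / 2 := by
    have h1 : B.card ≤ ∑ k ∈ Ks N s, (univ.filter fun g => mul k g ∈ Bd).card := card_biUnion_le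
    have h2 : ∀ k ∈ Ks N s, (univ.filter fun g => mul k g ∈ Bd).card ≤ Bd.card := by
      intro k _
      refine card_le_card_of_injOn (mul k) ?_ (hmul k).injOn
      intro g hg
      exact mem_coe.2 (mem_filter.1 (mem_coe.1 hg)).2
    have h3 : B.card ≤ (Ks N s).card * Bd.card := by
      refine h1.trans ((sum_le_sum h2).trans ?_)
      rw [sum_const, smul_eq_mul]
    have h4 : (B.card : ℝ) ≤ l ^ s * Bd.card := by
      rw [← hκ]; exact_mod_cast h3
    have h5 : (Bd.card : ℝ) ≤ 6 * L ^ t * n1 / T := by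
      rw [le_div_iff₀ hT0]; exact hBd
    calc (B.card : ℝ) ≤ l ^ s * (6 * L ^ t * n1 / T) := by
          refine h4.trans ?_
          gcongr
      _ = n1 / 2 := by
          rw [hT]
          field_simp
          ring
  set G : Finset (Fin t → (ZMod N)ˣ) := univ \ B with hG
  have hGcard : n1 / 2 ≤ (G.card : ℝ) := by
    have h1 : (G.card : ℝ) = n1 - B.card := by
      rw [← hall, hG, card_sdiff_of_subset (subset_univ B), Nat.cast_sub (card_le_card (subset_univ B))]
    rw [h1]; linarith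
  have hGgood : ∀ g ∈ G, ∀ k ∈ Ks N s, good T fun i => ((mul k g i : (ZMod N)ˣ) : ZMod N) := by
    intro g hg k hk
    by_contra hcon
    have h1 := (mem_sdiff.1 hg).2
    apply h1
    exact mem_biUnion.2 ⟨k, hk, mem_filter.2 ⟨mem_univ g, mem_filter.2 ⟨mem_univ _, hcon⟩⟩⟩
  set R : ℝ := 2 * 5 ^ (t + 1) * n1 * ((Nat.log 2 N : ℝ) + 1) ^ t * (11 + 10 * Real.log T) with hR
  have hsumk : ∀ k ∈ Ks N s,
      ∑ g ∈ G, SF (fun j => (((∏ i, b i ^ k i : ℕ) : ZMod N)) * (g j : ZMod N)) ≤ R := by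
    intro k hk
    have h1 := hEXP N t T hT1 (G.image (mul k)) (by
      intro h hh
      obtain ⟨g, hg, rfl⟩ := mem_image.1 hh
      exact hGgood g hg k hk)
    rw [sum_image (fun x _ y _ hxy => hmul k hxy)] at h1
    have h2 : ∑ g ∈ G, SF (fun j => (((∏ i, b i ^ k i : ℕ) : ZMod N)) * (g j : ZMod N)) =
        ∑ g ∈ G, SF (fun j => ((mul k g j : (ZMod N)ˣ) : ZMod N)) := by
      refine sum_congr rfl fun g _ => ?_
      rw [hmulc]
    rw [h2]
    exact h1
  have htotal : ∑ g ∈ G, ∑ k ∈ Ks N s,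
      SF (fun j => (((∏ i, b i ^ k i : ℕ) : ZMod N)) * (g j : ZMod N)) ≤ l ^ s * R := by
    rw [sum_comm]
    refine (sum_le_sum hsumk).trans ?_
    rw [sum_const, nsmul_eq_mul, hκ]
  have hlogT0 : 0 ≤ Real.log T := Real.log_nonneg hT1
  have hR0 : 0 ≤ R := by rw [hR]; positivity
  have hGne : G.Nonempty := by
    rw [← card_pos]
    have : (0 : ℝ) < G.card := by linarith
    exact_mod_cast this
  obtain ⟨g, hg, hgle⟩ : ∃ g ∈ G, ∑ k ∈ Ks N s,
      SF (fun j => (((∏ i, b i ^ k i : ℕ) : ZMod N)) * (g j : ZMod N)) ≤ l ^ s * R / G.card := by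
    refine exists_le_of_sum_le hGne ?_
    rw [sum_const, nsmul_eq_mul]
    have hc : (0 : ℝ) < G.card := by linarith
    rw [mul_div_cancel₀ _ hc.ne']
    exact htotal
  refine ⟨g, hgle.trans ?_⟩
  have hlogl : 0 ≤ Real.log l := Real.log_nonneg (by linarith)
  have hlogT : Real.log T ≤ 3 + 2 * t + (s + t) * Real.log l := by
    have h1 : T ≤ 12 * 4 ^ t * l ^ (s + t) := by
      rw [hT]
      have h2 : L ^ t ≤ (4 * l) ^ t := by gcongr
      calc 12 * l ^ s * L ^ t ≤ 12 * l ^ s * (4 * l) ^ t := by gcongr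
        _ = 12 * 4 ^ t * l ^ (s + t) := by rw [mul_pow, pow_add]; ring
    have h3 : Real.log T ≤ Real.log (12 * 4 ^ t * l ^ (s + t)) := Real.log_le_log hT0 h1
    have h3' : Real.log (12 * 4 ^ t * l ^ (s + t)) =
        Real.log 12 + t * Real.log 4 + ((s : ℝ) + t) * Real.log l := by
      rw [Real.log_mul (by positivity) (by positivity), Real.log_mul (by norm_num) (by positivity),
        Real.log_pow, Real.log_pow]
      push_cast
      ring
    rw [h3'] at h3
    have h4 : Real.log 12 ≤ 3 := by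
      rw [Real.log_le_iff_le_exp (by norm_num)]
      have h5 : (2.7 : ℝ) < Real.exp 1 := by have := Real.exp_one_gt_d9; linarith
      have h6 : Real.exp 3 = Real.exp 1 ^ 3 := by rw [← Real.exp_nat_mul]; norm_num
      rw [h6]
      have h7 : (2.7 : ℝ) ^ 3 ≤ Real.exp 1 ^ 3 := by gcongr
      norm_num at h7 ⊢
      linarith
    have h5 : Real.log 4 ≤ 2 := by
      have h6 : Real.log 4 = 2 * Real.log 2 := by
        rw [show (4 : ℝ) = 2 ^ 2 by norm_num, Real.log_pow]; norm_num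
      have h7 : Real.log 2 ≤ 1 := by have := Real.log_two_lt_d9; linarith
      linarith
    have h6 : (t : ℝ) * Real.log 4 ≤ t * 2 := by gcongr
    linarith
  have hfac : 11 + 10 * Real.log T ≤ (41 + 20 * s + 20 * t) * (1 + Real.log l) := by
    have h1 : 11 + 10 * Real.log T ≤ 41 + 20 * t + 10 * (s + t) * Real.log l := by
      nlinarith
    have h2 : (0 : ℝ) ≤ s := Nat.cast_nonneg _
    have h3 : (0 : ℝ) ≤ t := Nat.cast_nonneg _
    have h4 : 0 ≤ (s : ℝ) * Real.log l := by positivity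
    have h5 : 0 ≤ (t : ℝ) * Real.log l := by positivity
    nlinarith
  have hlt : ((Nat.log 2 N : ℝ) + 1) ^ t ≤ l ^ t := by
    gcongr
    rw [hl]; linarith
  have hc : (0 : ℝ) < G.card := by linarith
  rw [div_le_iff₀ hc]
  have h1 : l ^ s * R ≤ 4 * 5 ^ (t + 1) * (41 + 20 * s + 20 * t) * l ^ (s + t) *
      (1 + Real.log l) * (n1 / 2) := by
    rw [hR]
    calc l ^ s * (2 * 5 ^ (t + 1) * n1 * ((Nat.log 2 N : ℝ) + 1) ^ t * (11 + 10 * Real.log T))
        ≤ l ^ s * (2 * 5 ^ (t + 1) * n1 * l ^ t * ((41 + 20 * s + 20 * t) * (1 + Real.log l))) := by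
          gcongr
      _ = _ := by rw [pow_add]; ring
  refine h1.trans ?_
  gcongr

end Pool.Agent.H484.HH
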