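import Pool.Agent.H484.HH.Stm

set_option autoImplicit false

open Finset

namespace Pool.Agent.H484.HH

theorem t_CNT : S_CNT := by
  intro N _ t k r hk
  classical
  obtain ⟨i0, hi0⟩ := Function.ne_iff.1 hk
  have hi0' : k i0 ≠ 0 := hi0
  set S := univ.filter fun h : Fin t → (ZMod N)ˣ => -(∑ i, k i * (h i : ZMod N)) = r with hS
  have hinj : Set.InjOn (fun p : (Fin t → (ZMod N)ˣ) × (ZMod N)ˣ => Function.update p.1 i0 p.2)
      ((S ×ˢ (univ : Finset (ZMod N)ˣ) : Finset _) : Set ((Fin t → (ZMod N)ˣ) × (ZMod N)ˣ)) := by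
    rintro ⟨h, u⟩ hh ⟨h', u'⟩ hh' heq
    have hh1 := (mem_filter.1 (mem_product.1 (mem_coe.1 hh)).1).2
    have hh2 := (mem_filter.1 (mem_product.1 (mem_coe.1 hh')).1).2
    simp only at heq hh1 hh2
    have hu : u = u' := by
      have := congrFun heq i0
      rwa [Function.update_self, Function.update_self] at this
    have hj : ∀ j, j ≠ i0 → h j = h' j := by
      intro j hj
      have := congrFun heq j
      rwa [Function.update_of_ne hj, Function.update_of_ne hj] at this
    have hsum : ∑ i, k i * (h i : ZMod N) = ∑ i, k i * (h' i : ZMod N) := by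
      have := hh1.trans hh2.symm
      exact neg_injective this
    rw [← add_sum_erase univ _ (mem_univ i0), ← add_sum_erase univ _ (mem_univ i0)] at hsum
    have hrest : ∑ i ∈ univ.erase i0, k i * (h i : ZMod N) =
        ∑ i ∈ univ.erase i0, k i * (h' i : ZMod N) := by
      refine sum_congr rfl fun j hj' => ?_
      rw [hj j (ne_of_mem_erase hj')]
    rw [hrest] at hsum
    have h1 := add_right_cancel hsum
    have h2 : (h i0 : ZMod N) = h' i0 := mul_left_cancel₀ hi0' h1
    have h3 : h i0 = h' i0 := Units.ext h2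
    have h4 : h = h' := by
      funext j
      by_cases hji : j = i0
      · rw [hji, h3]
      · exact hj j hji
    rw [h4, hu]
  have hcard := card_le_card_of_injOn (t := (univ : Finset (Fin t → (ZMod N)ˣ))) _
    (fun p _ => mem_coe.2 (mem_univ (Function.update p.1 i0 p.2))) hinj
  have hN : 1 ≤ N := (Fact.out : N.Prime).one_lt.le
  rw [card_product, card_univ, card_univ, Fintype.card_fun, Fintype.card_fin, ZMod.card_units] at hcard
  have h5 : ((N - 1 : ℕ) : ℝ) = (N : ℝ) - 1 := by rw [Nat.cast_sub hN]; simp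
  rw [← h5]
  exact_mod_cast hcard

end Pool.Agent.H484.HH
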